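import Mathlib

namespace Pool.Agent.H.MP_2aa58c_an
open Set Filter Topology
open scoped Manifold ContDiff

def Hs : Type := ℝ × ℝ × ℝ

instance : TopologicalSpace Hs := inferInstanceAs (TopologicalSpace (ℝ × ℝ × ℝ))
instance : PolishSpace Hs := inferInstanceAs (PolishSpace (ℝ × ℝ × ℝ))
instance : T2Space Hs := inferInstanceAs (T2Space (ℝ × ℝ × ℝ))
instance : ConnectedSpace Hs := inferInstanceAs (ConnectedSpace (ℝ × ℝ × ℝ))
instance : ChartedSpace (ℝ × ℝ × ℝ) Hs := inferInstanceAs (ChartedSpace (ℝ × ℝ × ℝ) (ℝ × ℝ × ℝ))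

def mk (a b c : ℝ) : Hs := (a, b, c)

theorem hext {g h : Hs} (h1 : g.1 = h.1) (h2 : g.2.1 = h.2.1) (h3 : g.2.2 = h.2.2) : g = h :=
  Prod.ext h1 (Prod.ext h2 h3)

instance : Mul Hs := ⟨fun g h => mk (g.1 + h.1) (g.2.1 + h.2.1) (g.2.2 + h.2.2 + g.1 * h.2.1)⟩
instance : One Hs := ⟨mk 0 0 0⟩
instance : Inv Hs := ⟨fun g => mk (-g.1) (-g.2.1) (-g.2.2 + g.1 * g.2.1)⟩

@[simp] theorem k1 (a b c : ℝ) : (mk a b c).1 = a := rfl
@[simp] theorem k2 (a b c : ℝ) : (mk a b c).2.1 = b := rfl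
@[simp] theorem k3 (a b c : ℝ) : (mk a b c).2.2 = c := rfl
@[simp] theorem m1 (g h : Hs) : (g * h).1 = g.1 + h.1 := rfl
@[simp] theorem m2 (g h : Hs) : (g * h).2.1 = g.2.1 + h.2.1 := rfl
@[simp] theorem m3 (g h : Hs) : (g * h).2.2 = g.2.2 + h.2.2 + g.1 * h.2.1 := rfl
@[simp] theorem o1 : (1 : Hs).1 = 0 := rfl
@[simp] theorem o2 : (1 : Hs).2.1 = 0 := rfl
@[simp] theorem o3 : (1 : Hs).2.2 = 0 := rfl
@[simp] theorem i1 (g : Hs) : g⁻¹.1 = -g.1 := rfl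
@[simp] theorem i2 (g : Hs) : g⁻¹.2.1 = -g.2.1 := rfl
@[simp] theorem i3 (g : Hs) : g⁻¹.2.2 = -g.2.2 + g.1 * g.2.1 := rfl

instance : Group Hs := Group.ofLeftAxioms
  (fun a b c => hext (by simp [add_assoc]) (by simp [add_assoc]) (by simp; ring))
  (fun a => hext (by simp) (by simp) (by simp)) (fun a => hext (by simp) (by simp) (by simp))

theorem lie : LieGroup 𝓘(ℝ, ℝ × ℝ × ℝ) ∞ Hs where
  __ := (inferInstanceAs (IsManifold 𝓘(ℝ, ℝ × ℝ × ℝ) ∞ (ℝ × ℝ × ℝ)) :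
    IsManifold 𝓘(ℝ, ℝ × ℝ × ℝ) ∞ Hs)
  contMDiff_mul := by
    have : ContDiff ℝ ∞ fun p : (ℝ × ℝ × ℝ) × (ℝ × ℝ × ℝ) =>
      (p.1.1 + p.2.1, p.1.2.1 + p.2.2.1, p.1.2.2 + p.2.2.2 + p.1.1 * p.2.2.1) := by fun_prop
    exact this.comp_contMDiff (contMDiff_fst.prodMk_space contMDiff_snd)
  contMDiff_inv := by
    have : ContDiff ℝ ∞ fun g : ℝ × ℝ × ℝ => (-g.1, -g.2.1, -g.2.2 + g.1 * g.2.1) := by fun_prop
    exact this.contMDiff

instance : IsTopologicalGroup Hs := by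
  have := lie
  exact topologicalGroup_of_lieGroup 𝓘(ℝ, ℝ × ℝ × ℝ) ∞

theorem nil : Group.IsNilpotent Hs := ⟨2, eq_top_iff.2 fun x _ y z => by
  change _ = (1 : Hs)
  simp only [commutatorElement_def]
  refine hext ?_ ?_ ?_ <;> simp <;> ring⟩

def Ga (k : ℤ) : Subgroup Hs where
  carrier := {g | (∃ a : ℤ, g.1 = k * a) ∧ (∃ b : ℤ, g.2.1 = b) ∧ ∃ c : ℤ, g.2.2 = c}
  mul_mem' := by
    rintro g h ⟨⟨a, ha⟩, ⟨b, hb⟩, c, hc⟩ ⟨⟨a', ha'⟩, ⟨b', hb'⟩, c', hc'⟩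
    exact ⟨⟨a + a', by simp [*, mul_add]⟩, ⟨b + b', by simp [*]⟩, c + c' + k * a * b', by simp [*]⟩
  one_mem' := ⟨⟨0, by simp⟩, ⟨0, by simp⟩, 0, by simp⟩
  inv_mem' := by
    rintro g ⟨⟨a, ha⟩, ⟨b, hb⟩, c, hc⟩
    exact ⟨⟨-a, by simp [*]⟩, ⟨-b, by simp [*]⟩, -c + k * a * b, by simp [*]⟩

theorem zi {t : ℝ} (n : ℤ) (h : t = n) (h1 : |t| < 1) : t = 0 := by
  rw [h] at h1 ⊢
  exact_mod_cast Int.abs_lt_one_iff.1 (by exact_mod_cast h1)

theorem c1 : Continuous fun g : Hs => g.1 := continuous_fst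
theorem c2 : Continuous fun g : Hs => g.2.1 := continuous_snd.fst
theorem c3 : Continuous fun g : Hs => g.2.2 := continuous_snd.snd
theorem cmk {Y : Type} [TopologicalSpace Y] {a b c : Y → ℝ} (ha : Continuous a)
    (hb : Continuous b) (hc : Continuous c) : Continuous fun y => mk (a y) (b y) (c y) :=
  ha.prodMk (hb.prodMk hc)

instance (k : ℤ) : DiscreteTopology (Ga k) := discreteTopology_of_isOpen_singleton_one (by
  have : ({1} : Set (Ga k)) = {g | |g.1.1| < 1} ∩ ({g | |g.1.2.1| < 1} ∩ {g | |g.1.2.2| < 1}) := by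
    refine Subset.antisymm (by rintro _ rfl; simp) ?_
    rintro ⟨g, ⟨a, ha⟩, ⟨b, hb⟩, c, hc⟩ ⟨h1, h2, h3⟩
    exact Subtype.ext (hext (zi (k * a) (by simpa using ha) h1) (zi b hb h2) (zi c hc h3))
  rw [this]
  exact (isOpen_lt (c1.comp continuous_subtype_val).abs continuous_const).inter
    ((isOpen_lt (c2.comp continuous_subtype_val).abs continuous_const).inter
      (isOpen_lt (c3.comp continuous_subtype_val).abs continuous_const)))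

def Tw (Γ : Subgroup Hs) : Prop := ∀ a b c : ℤ, mk (2 * a) b c ∈ Γ

theorem tw2 : Tw (Ga 2) := fun a b c => ⟨⟨a, by simp⟩, ⟨b, rfl⟩, c, rfl⟩
theorem tw1 : Tw (Ga 1) := fun a b c => ⟨⟨2 * a, by simp⟩, ⟨b, rfl⟩, c, rfl⟩

def Bx (p q : ℝ) : Set Hs := {g | g.1 ∈ Icc 0 p ∧ g.2.1 ∈ Icc 0 q ∧ g.2.2 ∈ Icc 0 q}

theorem Bx_c (p q : ℝ) : IsCompact (Bx p q) :=
  (isCompact_Icc.prod (isCompact_Icc.prod isCompact_Icc) :
    IsCompact (Icc (0 : ℝ) p ×ˢ Icc (0 : ℝ) q ×ˢ Icc (0 : ℝ) q))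

theorem Tw.cpt {Γ : Subgroup Hs} (h : Tw Γ) : CompactSpace (Hs ⧸ Γ) := by
  refine ⟨((Bx_c 2 1).image QuotientGroup.continuous_mk).of_isClosed_subset isClosed_univ ?_⟩
  intro x _
  obtain ⟨g, rfl⟩ := QuotientGroup.mk_surjective x
  refine ⟨_, ⟨?_, ?_, ?_⟩, QuotientGroup.mk_mul_of_mem g
    (h (-⌊g.1 / 2⌋) (-⌊g.2.1⌋) (-⌊g.2.2 - g.1 * ⌊g.2.1⌋⌋))⟩
  all_goals
    simp only [m1, m2, m3, k1, k2, k3, Int.cast_neg]
    constructor <;> linarith [Int.floor_le (g.1 / 2), Int.lt_floor_add_one (g.1 / 2),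
      Int.floor_le g.2.1, Int.lt_floor_add_one g.2.1, Int.floor_le (g.2.2 - g.1 * ⌊g.2.1⌋),
      Int.lt_floor_add_one (g.2.2 - g.1 * ⌊g.2.1⌋)]

theorem kron : ∃ α β : ℝ, 1 < β ∧ ∀ u v ε : ℝ, 0 < ε → ∃ n a b : ℤ,
    |n * α + 2 * a - u| < ε ∧ |n * β + b - v| < ε := by
  let D : ℚ × ℚ × ℕ → Set (ℝ × ℝ) := fun q => ⋃ n : ℤ × ℤ × ℤ,
    {p | |n.1 * p.1 + 2 * n.2.1 - q.1| < 1 / (q.2.2 + 1)} ∩
      {p | |n.1 * p.2 + n.2.2 - q.2.1| < 1 / (q.2.2 + 1)}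
  have : Dense (⋂ q, D q) := dense_iInter_of_isOpen (fun q => isOpen_iUnion fun n =>
    (isOpen_lt (by fun_prop) continuous_const).inter (isOpen_lt (by fun_prop) continuous_const))
    fun q => Metric.dense_iff.2 fun p r hr => by
      obtain ⟨n, hn⟩ := exists_nat_gt (2 / r)
      have n0 : (0 : ℝ) < n := lt_trans (by positivity) hn
      rw [div_lt_iff₀ hr] at hn
      set a := ⌊(q.1 - n * p.1) / 2⌋
      set b := ⌊q.2.1 - n * p.2⌋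
      refine ⟨((q.1 - 2 * a) / n, (q.2.1 - b) / n), ?_, mem_iUnion.2 ⟨(n, a, b), ?_, ?_⟩⟩
      · rw [Metric.mem_ball, Prod.dist_eq, max_lt_iff, Real.dist_eq, Real.dist_eq, abs_lt, abs_lt]
        simp only [lt_sub_iff_add_lt, sub_lt_iff_lt_add, lt_div_iff₀ n0, div_lt_iff₀ n0]
        refine ⟨⟨?_, ?_⟩, ?_, ?_⟩ <;> nlinarith [Int.floor_le ((q.1 - n * p.1) / 2),
          Int.lt_floor_add_one ((q.1 - n * p.1) / 2), Int.floor_le (q.2.1 - n * p.2),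
          Int.lt_floor_add_one (q.2.1 - n * p.2)]
      all_goals
        simp only [mem_ofPred_eq, Int.cast_natCast, mul_div_cancel₀ _ n0.ne']
        simpa using Nat.cast_add_one_pos _
  obtain ⟨p, h1, h2⟩ := this.inter_open_nonempty {p | 1 < p.2}
    (isOpen_lt continuous_const continuous_snd) ⟨(0, 2), by simp⟩
  refine ⟨p.1, p.2, h1, fun u v ε hε => ?_⟩
  obtain ⟨q, hq⟩ := exists_rat_near u (half_pos hε)
  obtain ⟨r, hr⟩ := exists_rat_near v (half_pos hε)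
  obtain ⟨k, hk⟩ := exists_nat_one_div_lt (half_pos hε)
  obtain ⟨n, a1, a2⟩ := mem_iUnion.1 (mem_iInter.1 h2 (q, r, k))
  simp only [mem_ofPred_eq, abs_lt] at a1 a2 hq hr
  exact ⟨n.1, n.2.1, n.2.2, abs_lt.2 ⟨by linarith, by linarith⟩,
    abs_lt.2 ⟨by linarith, by linarith⟩⟩

theorem exMin {G X : Type} [Group G] [MulAction G X] [TopologicalSpace X] [CompactSpace X] (τ : G)
    {C : Set X} (h : IsClosed C ∧ C.Nonempty ∧ ∀ n : ℤ, ∀ x ∈ C, τ ^ n • x ∈ C) :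
    ∃ M ⊆ C, Minimal (fun C : Set X =>
      IsClosed C ∧ C.Nonempty ∧ ∀ n : ℤ, ∀ x ∈ C, τ ^ n • x ∈ C) M :=
  zorn_superset_nonempty {C | IsClosed C ∧ C.Nonempty ∧ ∀ n : ℤ, ∀ x ∈ C, τ ^ n • x ∈ C}
    (fun c hc ch hn => ⟨⋂₀ c, ⟨isClosed_sInter fun s hs => (hc hs).1,
      have := hn.to_subtype
      IsCompact.nonempty_sInter_of_directed_nonempty_isCompact_isClosed 
        (fun a ha b hb => (ch.total ha hb).elim (fun h => ⟨a, ha, subset_rfl, h⟩)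
          fun h => ⟨b, hb, h, subset_rfl⟩)
        (fun s hs => (hc hs).2.1) (fun s hs => (hc hs).1.isCompact) fun s hs => (hc hs).1,
      fun n x hx s hs => (hc hs).2.2 n x (hx s hs)⟩, fun _ hs => sInter_subset_of_mem hs⟩) C h

theorem pw (τ : Hs) (n : ℤ) : (τ ^ n).1 = n * τ.1 ∧ (τ ^ n).2.1 = n * τ.2.1 := by
  induction n using Int.induction_on with
  | zero => simp
  | succ n ih => rw [zpow_add_one, m1, m2, ih.1, ih.2]; push_cast; constructor <;> ring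
  | pred n ih => rw [zpow_sub_one, m1, m2, ih.1, ih.2, i1, i2]; push_cast; constructor <;> ring

theorem Tw.mn {Γ : Subgroup Hs} (h : Tw Γ) {α β : ℝ} (hβ : 1 < β)
    (hk : ∀ u v ε : ℝ, 0 < ε → ∃ n a b : ℤ, |n * α + 2 * a - u| < ε ∧ |n * β + b - v| < ε)
    (x : Hs ⧸ Γ) : Dense (range fun n : ℤ => mk α β 0 ^ n • x) := by
  have := h.cpt
  set τ := mk α β 0
  obtain ⟨M, hM, ⟨mc, ⟨x0, hx0⟩, mi⟩, mm⟩ := exMin τ (C := closure (range fun n : ℤ => τ ^ n • x))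
    ⟨isClosed_closure, (range_nonempty _).closure, fun n y hy =>
      map_mem_closure (continuous_const_smul _) hy (by
        rintro _ ⟨k, rfl⟩
        exact ⟨n + k, by simp [zpow_add, mul_smul]⟩)⟩
  have mv : ∀ (n a b c : ℤ) (g : Hs), (g : Hs ⧸ Γ) ∈ M →
      ((τ ^ n * g * mk (2 * a) b c : Hs) : Hs ⧸ Γ) ∈ M := fun n a b c g hg => by
    rw [QuotientGroup.mk_mul_of_mem _ (h a b c)]
    exact mi n _ hg
  have sA : ∀ u v, ∃ t, ((mk u v t : Hs) : Hs ⧸ Γ) ∈ M := fun u v => by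
    have cl := isClosedMap_fst_of_compactSpace _ (mc.preimage (QuotientGroup.continuous_mk.comp
      (cmk (a := fun p : (ℝ × ℝ) × Icc (0 : ℝ) 1 => p.1.1) (b := fun p => p.1.2)
        (c := fun p => p.2.1) (by fun_prop) (by fun_prop) (by fun_prop))))
    obtain ⟨g, rfl⟩ := QuotientGroup.mk_surjective x0
    obtain ⟨p, hp, e⟩ := cl.closure_subset (Metric.mem_closure_iff.2 (fun ε hε => by
      obtain ⟨n, a, b, h1, h2⟩ := hk (u - g.1) (v - g.2.1) ε hε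
      set q := τ ^ n * g * mk (2 * a) b (0 : ℤ)
      refine ⟨(q.1, q.2.1), ⟨((q.1, q.2.1), ⟨Int.fract q.2.2, Int.fract_nonneg _,
        (Int.fract_lt_one _).le⟩), ?_, rfl⟩, ?_⟩
      · have := mv 0 0 0 (-⌊q.2.2⌋) q (mv n a b 0 g hx0)
        change ((mk q.1 q.2.1 (Int.fract q.2.2) : Hs) : Hs ⧸ Γ) ∈ M
        convert this using 2
        exact hext (by simp) (by simp) (by simp [Int.fract, sub_eq_add_neg])
      · rw [Prod.dist_eq, max_lt_iff, Real.dist_eq, Real.dist_eq]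
        simp only [q, m1, m2, k1, k2, pw, τ, abs_lt] at h1 h2 ⊢
        refine ⟨⟨?_, ?_⟩, ?_, ?_⟩ <;> linarith) : (u, v) ∈ closure _)
    obtain ⟨⟨u', v'⟩, t⟩ := p
    obtain ⟨rfl, rfl⟩ := Prod.mk.inj e
    exact ⟨t, hp⟩
  have sB : ∀ t, ∃ y ∈ M, mk 0 0 t • y ∈ M := fun t => by
    have c0 : Continuous fun p : (ℝ × ℝ) × (Hs ⧸ Γ) => mk p.1.1 p.1.2 t • p.2 :=
      (cmk (by fun_prop) (by fun_prop) continuous_const).smul continuous_snd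
    have cl := isClosedMap_fst_of_compactSpace _ ((mc.preimage continuous_snd).inter
      (mc.preimage c0))
    obtain ⟨p, hp, e⟩ := cl.closure_subset (Metric.mem_closure_iff.2 (fun ε hε => by
      have h0 : 0 < min ε 1 / 2 := by positivity
      obtain ⟨n, a, b, h1, h2⟩ := hk 0 (min ε 1 / 2) _ h0
      rw [abs_lt] at h1 h2
      have := min_le_left ε 1
      have := min_le_right ε 1
      have hb : (b : ℝ) ≠ 0 := fun hb => by
        rcases le_or_gt n 0 with hn | hn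
        · have : (n : ℝ) ≤ 0 := by exact_mod_cast hn
          nlinarith
        · have : (1 : ℝ) ≤ n := by exact_mod_cast hn
          nlinarith
      obtain ⟨z, hz⟩ := sA ((t - (τ ^ n).2.2) / b - n * α) 0
      refine ⟨(n * α + 2 * a, n * β + b), ⟨((n * α + 2 * a, n * β + b), _), ⟨hz, ?_⟩, rfl⟩, ?_⟩
      · have := mv n a b 0 _ hz
        change ((mk _ _ t * _ : Hs) : Hs ⧸ Γ) ∈ M
        convert this using 2
        refine hext ?_ ?_ ?_ <;> simp only [m1, m2, m3, k1, k2, k3, pw, τ]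
        · ring
        · ring
        · field_simp
          push_cast
          ring
      · rw [Prod.dist_eq, max_lt_iff, Real.dist_eq, Real.dist_eq, abs_lt, abs_lt]
        refine ⟨⟨?_, ?_⟩, ?_, ?_⟩ <;> simp only <;> linarith) : ((0, 0) : ℝ × ℝ) ∈ closure _)
    obtain ⟨⟨u', v'⟩, y⟩ := p
    obtain ⟨rfl, rfl⟩ := Prod.mk.inj e
    exact ⟨y, hp⟩
  refine fun y => hM ?_
  obtain ⟨g, rfl⟩ := QuotientGroup.mk_surjective y
  obtain ⟨z, hz⟩ := sA g.1 g.2.1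
  have := (mm (y := M ∩ {y | mk 0 0 (g.2.2 - z) • y ∈ M})
    ⟨mc.inter (mc.preimage (continuous_const_smul _)), sB _, fun n y hy => ⟨mi n y hy.1, by
      have e : mk 0 0 (g.2.2 - z) * τ ^ n = τ ^ n * mk 0 0 (g.2.2 - z) :=
        hext (by simp) (by simp) (by simp [add_comm])
      change _ • _ • y ∈ M
      rw [smul_smul, e, mul_smul]
      exact mi n _ hy.2⟩⟩ inter_subset_left hz).2
  change ((mk _ _ _ * _ : Hs) : Hs ⧸ Γ) ∈ M at this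
  convert this using 2
  exact hext (by simp) (by simp) (by simp)

def W : Set Hs := ⋃ γ : Ga 1, (· * γ.1) ⁻¹'
  ({g | g.1 ∈ Ioo 0 (1 / 3)} ∩ ({g | g.2.1 ∈ Ioo 0 (1 / 3)} ∩ {g | g.2.2 ∈ Ioo 0 (1 / 3)}))

theorem W_open : IsOpen W := isOpen_iUnion fun γ =>
  ((isOpen_Ioo.preimage c1).inter ((isOpen_Ioo.preimage c2).inter
    (isOpen_Ioo.preimage c3))).preimage (continuous_mul_const _)

theorem W_pre {Γ : Subgroup Hs} (h : Γ ≤ Ga 1) :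
    (QuotientGroup.mk : Hs → Hs ⧸ Γ) ⁻¹' (QuotientGroup.mk '' W) = W := by
  refine Subset.antisymm ?_ (subset_preimage_image _ _)
  rintro g ⟨w, hw, e⟩
  obtain ⟨γ, hγ⟩ := mem_iUnion.1 hw
  refine mem_iUnion.2 ⟨⟨_, mul_mem (inv_mem (h (QuotientGroup.eq.1 e))) γ.2⟩, ?_⟩
  simpa only [mem_preimage, mul_inv_rev, inv_inv, mul_assoc, mul_inv_cancel_left] using hγ

theorem W_lo : Bx (1 / 3) (1 / 3) ⊆ closure W := by
  refine Subset.trans ?_ (closure_mono (subset_iUnion _ (1 : Ga 1)))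
  have : closure (Ioo (0 : ℝ) (1 / 3) ×ˢ Ioo (0 : ℝ) (1 / 3) ×ˢ Ioo (0 : ℝ) (1 / 3)) =
      Icc (0 : ℝ) (1 / 3) ×ˢ Icc (0 : ℝ) (1 / 3) ×ˢ Icc (0 : ℝ) (1 / 3) := by
    rw [closure_prod_eq, closure_prod_eq, closure_Ioo (by norm_num)]
  simp only [OneMemClass.coe_one, mul_one, preimage_id']
  exact this.ge

theorem W_hi {g : Hs} (hg : g ∈ closure W) : ∃ γ ∈ Ga 1, g * γ ∈ Bx (1 / 3) (1 / 3) := by
  have := (((Bx_c (1 / 3) (1 / 3)).image (QuotientGroup.continuous_mk (N := Ga 1))).isClosed.preimage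
    QuotientGroup.continuous_mk).closure_subset_iff.2 (fun w hw => by
      obtain ⟨γ, h1, h2, h3⟩ := mem_iUnion.1 hw
      exact ⟨w * γ, ⟨Ioo_subset_Icc_self h1, Ioo_subset_Icc_self h2, Ioo_subset_Icc_self h3⟩,
        QuotientGroup.mk_mul_of_mem w γ.2⟩ : W ⊆ _) hg
  obtain ⟨w, hw, e⟩ := this
  exact ⟨_, QuotientGroup.eq.1 e.symm, by simpa using hw⟩

theorem ie {s : ℝ} {m n : ℤ} (h0 : s + m ∈ Icc (0 : ℝ) (1 / 3))
    (h1 : s + 1 / 3 + n ∈ Icc (0 : ℝ) (1 / 3)) : s = (-m : ℤ) := by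
  have := zi (t := m - n) (m - n) (by simp) (abs_lt.2 ⟨by linarith [h0.1, h1.2], by
    linarith [h0.2, h1.1]⟩)
  push_cast
  linarith [h0.1, h1.2]

theorem asym {g : Hs} (h : ∀ p ∈ Bx (1 / 3) (1 / 3), ∃ γ ∈ Ga 1, g * p * γ ∈ Bx (1 / 3) (1 / 3)) :
    g.1 = 0 ∧ g.2.1 = 0 ∧ ∃ c : ℤ, g.2.2 = c := by
  have H : ∀ x ∈ Icc (0 : ℝ) (1 / 3), ∀ y ∈ Icc (0 : ℝ) (1 / 3), ∀ z ∈ Icc (0 : ℝ) (1 / 3),
      ∃ a b c : ℤ, g.1 + x + a ∈ Icc (0 : ℝ) (1 / 3) ∧ g.2.1 + y + b ∈ Icc (0 : ℝ) (1 / 3) ∧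
        g.2.2 + z + g.1 * y + c + (g.1 + x) * b ∈ Icc (0 : ℝ) (1 / 3) := fun x hx y hy z hz => by
    obtain ⟨γ, ⟨⟨a, ha⟩, ⟨b, hb⟩, c, hc⟩, h1⟩ := h (mk x y z) ⟨hx, hy, hz⟩
    exact ⟨a, b, c, by simpa [Bx, ha, hb, hc] using h1⟩
  have z0 : (0 : ℝ) ∈ Icc (0 : ℝ) (1 / 3) := by norm_num
  have z1 : (1 / 3 : ℝ) ∈ Icc (0 : ℝ) (1 / 3) := by norm_num
  obtain ⟨a, b, -, h1, h2, -⟩ := H 0 z0 0 z0 0 z0
  obtain ⟨a', b', -, h3, h4, -⟩ := H _ z1 _ z1 0 z0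
  have ea := ie (by simpa using h1) h3
  have eb := ie (by simpa using h2) h4
  have K : ∀ x ∈ Icc (0 : ℝ) (1 / 3), ∀ y ∈ Icc (0 : ℝ) (1 / 3),
      ∃ c : ℤ, g.2.2 + g.1 * y - (g.1 + x) * g.2.1 = c := fun x hx y hy => by
    have e : ∀ b1 : ℤ, g.2.1 + y + b1 ∈ Icc (0 : ℝ) (1 / 3) → (b1 : ℝ) = -g.2.1 := fun b1 h => by
      have := zi (t := g.2.1 + b1) (-b + b1) (by simp [eb])
        (abs_lt.2 ⟨by linarith [h.1, hy.2], by linarith [h.2, hy.1]⟩)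
      linarith
    obtain ⟨-, b1, c1, -, h5, h6⟩ := H x hx y hy 0 z0
    obtain ⟨-, b2, c2, -, h7, h8⟩ := H x hx y hy _ z1
    rw [e _ h5] at h6
    rw [e _ h7] at h8
    exact ⟨_, ie (m := c1) (n := c2) (by convert h6 using 1; ring) (by convert h8 using 1; ring)⟩
  have S : ∀ t : ℝ, (∀ y ∈ Icc (0 : ℝ) (1 / 3), ∃ n : ℤ, t * y = n) → t = 0 := fun t ht => by
    have p : 0 < |t| + 3 := by positivity
    obtain ⟨n, hn⟩ := ht (1 / (|t| + 3)) ⟨by positivity,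
      one_div_le_one_div_of_le (by norm_num) (by linarith [abs_nonneg t])⟩
    have := zi n hn (by
      rw [mul_one_div, abs_div, abs_of_pos p, div_lt_one p]; linarith)
    simpa [p.ne'] using this
  obtain ⟨c, hc⟩ := K 0 z0 0 z0
  have e1 := S g.1 fun y hy => by
    obtain ⟨d, hd⟩ := K 0 z0 y hy
    exact ⟨d - c, by push_cast; linarith⟩
  have e2 := S g.2.1 fun x hx => by
    obtain ⟨d, hd⟩ := K x hx 0 z0
    exact ⟨c - d, by push_cast; linarith⟩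
  exact ⟨e1, e2, c, by simpa [e1] using hc⟩

theorem Tw.asy {Γ : Subgroup Hs} (h : Tw Γ) (h1 : Γ ≤ Ga 1) (g : Hs)
    (hg : (g • ·) '' closure (QuotientGroup.mk '' W : Set (Hs ⧸ Γ)) =
      closure (QuotientGroup.mk '' W)) (x : Hs ⧸ Γ) : g • x = x := by
  have e := (QuotientGroup.isOpenMap_coe (N := Γ)).preimage_closure_eq_closure_preimage
    QuotientGroup.continuous_mk (QuotientGroup.mk '' W)
  rw [W_pre h1] at e
  obtain ⟨a1, a2, c, a3⟩ := asym (g := g) fun p hp =>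
    W_hi (e.le (hg.le ⟨(p : Hs ⧸ Γ), e.ge (W_lo hp), rfl⟩))
  obtain ⟨p, rfl⟩ := QuotientGroup.mk_surjective x
  change ((g * p : Hs) : Hs ⧸ Γ) = _
  rw [← QuotientGroup.mk_mul_of_mem p (h 0 0 c)]
  exact congrArg _ (hext (by simp [a1]) (by simp [a2]) (by simp [a1, a3, add_comm]))

theorem le21 : Ga 2 ≤ Ga 1 := fun _ ⟨⟨a, ha⟩, h⟩ => ⟨⟨2 * a, by simpa using ha⟩, h⟩

theorem noiso {τ : Hs} (hd : Dense (range fun n : ℤ => τ ^ n • ((1 : Hs) : Hs ⧸ Ga 2))) :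
    ¬ ∃ φ : Hs ⧸ Ga 2 ≃ₜ Hs ⧸ Ga 1, (∀ x, φ (τ • x) = τ • φ x) ∧ φ (1 : Hs) = (1 : Hs) := by
  rintro ⟨φ, h1, h2⟩
  have h3 : ∀ (n : ℤ) x, φ (τ ^ n • x) = τ ^ n • φ x := fun n => by
    induction n using Int.induction_on with
    | zero => simp
    | succ n ih => intro x; rw [zpow_add_one, mul_smul, mul_smul, ih, h1]
    | pred n ih =>
      intro x
      rw [zpow_sub_one, mul_smul, mul_smul, ih, eq_inv_smul_iff.2 (h1 (τ⁻¹ • x)).symm,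
        smul_inv_smul]
  have h4 : ∀ g : Hs, φ g = g := fun g => by
    refine (isClosed_eq (φ.continuous.comp QuotientGroup.continuous_mk)
      QuotientGroup.continuous_mk).closure_subset_iff.2 ?_
      (hd.preimage QuotientGroup.isOpenMap_coe g)
    rintro w ⟨n, hn⟩
    change φ w = w
    rw [← hn, h3, h2]
    exact QuotientGroup.eq.2 (le21 (QuotientGroup.eq.1 hn))
  have := φ.injective ((h4 1).trans ((QuotientGroup.eq.2 (show 1⁻¹ * mk 1 0 0 ∈ Ga 1 from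
    ⟨⟨1, by simp⟩, ⟨0, by simp⟩, 0, by simp⟩)).trans (h4 _).symm))
  obtain ⟨⟨a, ha⟩, -⟩ := QuotientGroup.eq.1 this
  simp only [inv_one, one_mul, k1] at ha
  have : (1 : ℤ) = 2 * a := by exact_mod_cast ha
  omega

end Pool.Agent.H.MP_2aa58c_an
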